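import Pool.Agent.N309.LO.CentMat
import Pool.Agent.N309.LO.Gap

set_option autoImplicit false

/-!
# The Atiyah conjecture for finite-by-left-orderable groups

Let `N` be a finite normal subgroup of a group `G` such that `G ⧸ N` is left-orderable. Then the
finite subgroups of `G` are the subgroups of `N`, and the number `lcm(G)` of the Atiyah conjecture
is `|N|`. (1) The von Neumann rank of every nonzero matrix over the complex group ring is at least
`1 / |N|`, and this value occurs. (2) If `N` is central, the rank of a matrix `A` is between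
`s / |N|` and `min(m, n) s / |N|`, where `s` is the number of the characters `χ` of `N` for which
the `χ`-component of `A` is not zero. (3) So for central `N` the Atiyah conjecture holds for all
matrices over `ℂ G` with one row or one column, in particular for all elements of `ℂ G`; the rank is
exactly `s / |N|`.
-/

universe u

namespace Pool.Agent.Results.MP_54e5d7_al.FiniteByOrderable

/-- The kernel of right multiplication by the matrix `A` over the complex group ring on row vectors
of length `m` over `ℓ²(G)`: all square-summable `x` with `x A = 0`. -/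
def kernel {G : Type u} [Group G] {m n : ℕ} (A : Matrix (Fin m) (Fin n) (G →₀ ℂ)) :
    Set (lp (fun _ : Fin m × G => ℂ) 2) :=
  {x | ∀ (j : Fin n) (g : G),
    ∑ k : Fin m, ∑ h ∈ (A k j).support, x (k, g * h⁻¹) * A k j h = 0}

open Classical in
/-- The von Neumann dimension of that kernel: the sum over `i` of one minus the square of the
distance from the basis vector at `(i, 1)` to the kernel, that is, the sum of the squared lengths
of the projections of these vectors to the kernel. -/
noncomputable def kerDim {G : Type u} [Group G] {m n : ℕ}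
    (A : Matrix (Fin m) (Fin n) (G →₀ ℂ)) : ℝ :=
  ∑ i : Fin m, (1 - Metric.infDist
    (lp.single (E := fun _ : Fin m × G => ℂ) 2 (i, (1 : G)) (1 : ℂ)) (kernel A) ^ 2)

/-- The orders of the finite subgroups of `G` are bounded, and `d` is their least common
multiple. -/
def IsLcm (G : Type u) [Group G] (d : ℕ) : Prop :=
  (∃ N : ℕ, ∀ H : Subgroup G, Finite H → Nat.card H ≤ N) ∧
    (∀ H : Subgroup G, Finite H → Nat.card H ∣ d) ∧
    ∀ e : ℕ, (∀ H : Subgroup G, Finite H → Nat.card H ∣ e) → d ∣ e

/-- `Q` has a total order which is invariant under left multiplications. -/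
def LeftOrderable (Q : Type u) [Group Q] : Prop :=
  ∃ _ : LinearOrder Q, ∀ g a b : Q, a ≤ b → g * a ≤ g * b

/-- The coefficient at `h` of the component of `a` at the character `χ` of the finite central
subgroup `N`, up to the factor `1 / |N|`: it is `∑ z, χ z * a (h z)`, the coefficient at `h` of the
product of `a` and `∑ z, χ z • z⁻¹`. -/
noncomputable def component {G : Type u} [Group G] {N : Subgroup G} [Fintype N] (χ : N →* ℂ)
    (a : G →₀ ℂ) (h : G) : ℂ :=
  ∑ z : N, χ z * a (h * z)

/-- The number of the characters `χ` of `N` such that the component of `A` at `χ` is not zero. -/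
noncomputable def characterCount {G : Type u} [Group G] (N : Subgroup G) [Fintype N] {m n : ℕ}
    (A : Matrix (Fin m) (Fin n) (G →₀ ℂ)) : ℕ :=
  Set.ncard {χ : N →* ℂ | ∃ i j h, component χ (A i j) h ≠ 0}

open Pool.Agent.N309.LO

theorem kerDim_eq {G : Type u} [Group G] {m n : ℕ} (A : Matrix (Fin m) (Fin n) (G →₀ ℂ)) :
    kerDim A = W649.ZL.kerDimM A := by
  unfold kerDim W649.ZL.kerDimM
  congr!

/-- finite subgroups are contained in `N` -/
theorem le_of_finite {G : Type u} [Group G] (N : Subgroup G) [N.Normal]
    (hQ : LeftOrderable (G ⧸ N)) (H : Subgroup G) (hH : Finite H) : H ≤ N := by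
  obtain ⟨_, hord⟩ := hQ
  intro h hh
  rw [← QuotientGroup.eq_one_iff]
  have hfo : IsOfFinOrder (h : G ⧸ N) := by
    have h1 : IsOfFinOrder (⟨h, hh⟩ : H) := isOfFinOrder_of_finite _
    have h2 := MonoidHom.isOfFinOrder ((QuotientGroup.mk' N).comp H.subtype) h1
    exact h2
  obtain ⟨n, hn, hpow⟩ := isOfFinOrder_iff_pow_eq_one.1 hfo
  have hlt : ∀ g a b : G ⧸ N, a < b → g * a < g * b := by
    intro g a b hab
    refine lt_of_le_of_ne (hord g a b hab.le) ?_
    intro he
    exact hab.ne (mul_left_cancel he)
  rcases lt_trichotomy (h : G ⧸ N) 1 with h1 | h1 | h1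
  · exfalso
    have hk : ∀ k : ℕ, (h : G ⧸ N) ^ (k + 1) < 1 := by
      intro k
      induction k with
      | zero => simpa using h1
      | succ k ih =>
        have h2 := hlt (h : G ⧸ N) _ _ ih
        rw [mul_one, ← pow_succ'] at h2
        exact h2.trans h1
    obtain ⟨k, rfl⟩ : ∃ k, n = k + 1 := ⟨n - 1, by omega⟩
    exact (hk k).ne hpow
  · exact h1
  · exfalso
    have hk : ∀ k : ℕ, 1 < (h : G ⧸ N) ^ (k + 1) := by
      intro k
      induction k with
      | zero => simpa using h1
      | succ k ih =>
        have h2 := hlt (h : G ⧸ N) _ _ ih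
        rw [mul_one, ← pow_succ'] at h2
        exact h1.trans h2
    obtain ⟨k, rfl⟩ : ∃ k, n = k + 1 := ⟨n - 1, by omega⟩
    exact (hk k).ne' hpow

theorem isLcm {G : Type u} [Group G] (N : Subgroup G) [N.Normal] [Fintype N]
    (hQ : LeftOrderable (G ⧸ N)) : IsLcm G (Fintype.card N) := by
  have hd : ∀ H : Subgroup G, Finite H → Nat.card H ∣ Fintype.card N := by
    intro H hH
    rw [← Nat.card_eq_fintype_card]
    exact Subgroup.card_dvd_of_le (le_of_finite N hQ H hH)
  refine ⟨⟨Fintype.card N, fun H hH => Nat.le_of_dvd Fintype.card_pos (hd H hH)⟩, hd, ?_⟩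
  intro e he
  have := he N inferInstance
  rwa [Nat.card_eq_fintype_card] at this

/-- the hypothesis of the library -/
theorem gap' {G : Type u} [Group G] (N : Subgroup G) [N.Normal] [Fintype N]
    (hQ : LeftOrderable (G ⧸ N)) {m n : ℕ} (A : Matrix (Fin m) (Fin n) (G →₀ ℂ)) (hA : A ≠ 0) :
    1 / (Fintype.card N : ℝ) ≤ m - kerDim A := by
  obtain ⟨_, hord⟩ := hQ
  have hX : OrdInv G (G ⧸ N) := by
    intro g a b hab
    have := hord (g : G ⧸ N) a b hab
    induction a using QuotientGroup.induction_on
    induction b using QuotientGroup.induction_on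
    exact this
  have h1 := gap hX N ((1 : G) : G ⧸ N) (by
    intro g
    rw [MulAction.Quotient.smul_coe, smul_eq_mul, mul_one, eq_comm, QuotientGroup.eq]
    simp) A (by
    by_contra hcon
    push Not at hcon
    exact hA (by ext1 k j; exact hcon k j))
  rw [kerDim_eq]
  rw [Nat.card_eq_fintype_card, Fintype.card_fin] at h1
  linarith

/-- characters as additive characters -/
noncomputable def toDu {Z : Type u} [CommGroup Z] : (Z →* ℂ) ≃ Du Z where
  toFun ψ :=
    { toFun := fun a => ψ a.toMul
      map_zero_eq_one' := map_one ψ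
      map_add_eq_mul' := fun a b => map_mul ψ a.toMul b.toMul }
  invFun χ :=
    { toFun := fun z => χ (Additive.ofMul z)
      map_one' := χ.map_zero_eq_one
      map_mul' := fun a b => χ.map_add_eq_mul _ _ }
  left_inv ψ := by ext z; rfl
  right_inv χ := by ext z; rfl

theorem central {G : Type u} [Group G] (N : Subgroup G) [N.Normal] [Fintype N]
    (hQ : LeftOrderable (G ⧸ N)) (hN : N ≤ Subgroup.center G) {m n : ℕ}
    (A : Matrix (Fin m) (Fin n) (G →₀ ℂ)) :
    (characterCount N A : ℝ) / Fintype.card N ≤ m - kerDim A ∧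
      m - kerDim A ≤ (min m n : ℕ) * ((characterCount N A : ℝ) / Fintype.card N) := by
  classical
  let _ : CommGroup N :=
    { (inferInstance : Group N) with
      mul_comm := fun a b => Subtype.ext ((Subgroup.mem_center_iff.1 (hN b.2)) a) }
  let ι : N →* G := N.subtype
  have hc : ∀ z g, ι z * g = g * ι z := fun z g => ((Subgroup.mem_center_iff.1 (hN z.2)) g).symm
  have hinj : Function.Injective ι := Subtype.val_injective
  have hr : (Set.range ι : Set G) = N := by
    change Set.range (Subtype.val : N → G) = N
    exact Subtype.range_coe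
  let S : Finset (Du N) := Finset.univ.filter (fun χ => ∃ k j, cp ι χ (A k j) ≠ 0)
  have hcount : characterCount N A = S.card := by
    unfold characterCount
    rw [← Set.ncard_image_of_injective _ (toDu (Z := N)).injective, ← Set.ncard_coe_finset]
    congr 1
    ext χ
    constructor
    · rintro ⟨ψ, ⟨i, j, h, hne⟩, rfl⟩
      refine Finset.mem_coe.2 (Finset.mem_filter.2 ⟨Finset.mem_univ _, i, j, fun h0 => hne ?_⟩)
      have h1 := cp_apply ι (toDu ψ) (A i j) h
      rw [h0, Finsupp.zero_apply] at h1
      exact h1.symm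
    · intro hχ
      obtain ⟨i, j, hne⟩ := (Finset.mem_filter.1 (Finset.mem_coe.1 hχ)).2
      obtain ⟨h, hh⟩ := Finsupp.ne_iff.1 hne
      refine ⟨toDu.symm χ, ⟨i, j, h, fun h0 => hh ?_⟩, toDu.apply_symm_apply χ⟩
      rw [cp_apply]
      exact h0
  obtain ⟨_, hord⟩ := hQ
  have hX : OrdInv G (G ⧸ N) := by
    intro g a b hab
    have := hord (g : G ⧸ N) a b hab
    induction a using QuotientGroup.induction_on
    induction b using QuotientGroup.induction_on
    exact this
  have h1 := central_upper ι hX hc hinj ((1 : G) : G ⧸ N) (by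
    intro g
    rw [hr, MulAction.Quotient.smul_coe, smul_eq_mul, mul_one, eq_comm, QuotientGroup.eq]
    simp) A S (fun χ hχ => (Finset.mem_filter.1 hχ).2)
  have hS : ∀ χ, χ ∉ S → ∀ k j, cp ι χ (A k j) = 0 := by
    intro χ hχ k j
    by_contra hne
    exact hχ (Finset.mem_filter.2 ⟨Finset.mem_univ _, k, j, hne⟩)
  have h2 := central_lower_range ι hc hinj A S hS
  have h3 := central_lower_ker ι hc hinj A S hS
  rw [kerDim_eq, hcount]
  rw [Fintype.card_fin] at h1 h2 h3
  rw [Fintype.card_fin] at h2
  refine ⟨by linarith, ?_⟩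
  rcases le_total m n with hmn | hmn
  · rw [min_eq_left hmn]
    linarith
  · rw [min_eq_right hmn]
    linarith

/-- the sum of the elements of `N` -/
noncomputable def sumOf {G : Type u} [Group G] (N : Subgroup G) [Fintype N] : G →₀ ℂ := by
  classical
  exact Finsupp.onFinset (Finset.univ.image (fun z : N => (z : G))) (fun g => if g ∈ N then 1 else 0)
    (by
      intro g hg
      by_cases h : g ∈ N
      · exact Finset.mem_image.2 ⟨⟨g, h⟩, Finset.mem_univ _, rfl⟩
      · exact absurd (if_neg h) hg)

theorem sumOf_apply {G : Type u} [Group G] (N : Subgroup G) [Fintype N] (g : G) [Decidable (g ∈ N)] :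
    sumOf N g = if g ∈ N then 1 else 0 := by
  unfold sumOf
  rw [Finsupp.onFinset_apply]
  congr

theorem sumOf_support {G : Type u} [Group G] [DecidableEq G] (N : Subgroup G) [Fintype N] :
    (sumOf N).support = Finset.univ.image (fun z : N => (z : G)) := by
  classical
  ext g
  rw [Finsupp.mem_support_iff, sumOf_apply]
  constructor
  · intro hg
    by_cases h : g ∈ N
    · exact Finset.mem_image.2 ⟨⟨g, h⟩, Finset.mem_univ _, rfl⟩
    · exact absurd (if_neg h) hg
  · intro hg
    obtain ⟨z, _, rfl⟩ := Finset.mem_image.1 hg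
    rw [if_pos z.2]
    exact one_ne_zero

theorem sharp {G : Type u} [Group G] (N : Subgroup G) [Fintype N] :
    ((1 : ℕ) : ℝ) - kerDim (fun _ _ => sumOf N : Matrix (Fin 1) (Fin 1) (G →₀ ℂ)) ≤
      1 / (Fintype.card N : ℝ) := by
  classical
  have hpos : (0 : ℝ) < Fintype.card N := Nat.cast_pos.2 Fintype.card_pos
  have hposC : (Fintype.card N : ℂ) ≠ 0 := Nat.cast_ne_zero.2 Fintype.card_ne_zero
  let c : ℂ := 1 / (Fintype.card N : ℂ)
  let s : Finset (Fin 1 × G) := Finset.univ.image (fun z : N => ((0 : Fin 1), (z : G)))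
  have hs : s.card = Fintype.card N := by
    rw [Finset.card_image_of_injective _ (fun a b hab => Subtype.ext (Prod.mk.inj hab).2),
      Finset.card_univ]
  let y : lp (fun _ : Fin 1 × G => ℂ) 2 :=
    ∑ i ∈ s, lp.single (E := fun _ : Fin 1 × G => ℂ) 2 i ((fun _ => c) i)
  have hy : ∀ p, y p = if p ∈ s then c else 0 := by
    intro p
    simp only [y, lp.coeFn_sum, lp.coeFn_single, Finset.sum_apply, Finset.sum_pi_single]
  have hyn : ‖y‖ ^ 2 = 1 / (Fintype.card N : ℝ) := by
    have h1 := lp.norm_sum_single (E := fun _ : Fin 1 × G => ℂ) (p := 2) (by norm_num)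
      (fun _ => c) s
    have h2 : ‖c‖ = 1 / (Fintype.card N : ℝ) := by
      simp [c]
    rw [Finset.sum_const, hs, h2] at h1
    simp only [ENNReal.toReal_ofNat, Real.rpow_ofNat, nsmul_eq_mul] at h1
    rw [h1]
    field_simp
  let d : lp (fun _ : Fin 1 × G => ℂ) 2 :=
    lp.single (E := fun _ : Fin 1 × G => ℂ) 2 ((0 : Fin 1), (1 : G)) (1 : ℂ)
  have hd : ∀ p, d p = if p = ((0 : Fin 1), (1 : G)) then 1 else 0 := by
    intro p
    simp only [d, lp.coeFn_single, Pi.single_apply]
  have hker : d - y ∈ kernel (fun _ _ => sumOf N : Matrix (Fin 1) (Fin 1) (G →₀ ℂ)) := by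
    intro j g
    rw [Fin.sum_univ_one, sumOf_support, Finset.sum_image (fun a _ b _ hab => Subtype.ext hab)]
    have h1 : ∀ z : N, (d - y : lp (fun _ : Fin 1 × G => ℂ) 2) (0, g * (z : G)⁻¹) * sumOf N (z : G)
        = (if g = (z : G) then 1 else 0) - (if g ∈ N then c else 0) := by
      intro z
      rw [sumOf_apply, if_pos z.2, mul_one, lp.coeFn_sub, Pi.sub_apply, hd, hy]
      have e1 : ((0 : Fin 1), g * (z : G)⁻¹) = ((0 : Fin 1), (1 : G)) ↔ g = z := by
        rw [Prod.mk.injEq, mul_inv_eq_one]
        simp
      have e2 : ((0 : Fin 1), g * (z : G)⁻¹) ∈ s ↔ g ∈ N := by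
        constructor
        · intro h
          obtain ⟨w, _, hw⟩ := Finset.mem_image.1 h
          have h3 : (w : G) = g * (z : G)⁻¹ := (Prod.mk.inj hw).2
          have h4 : g = w * z := by rw [h3]; group
          rw [h4]
          exact N.mul_mem w.2 z.2
        · intro h
          exact Finset.mem_image.2 ⟨⟨g * (z : G)⁻¹, N.mul_mem h (N.inv_mem z.2)⟩,
            Finset.mem_univ _, rfl⟩
      simp only [e1, e2]
    rw [Finset.sum_congr rfl fun z _ => h1 z, Finset.sum_sub_distrib]
    by_cases hg : g ∈ N
    · rw [Finset.sum_eq_single (⟨g, hg⟩ : N)]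
      · simp only [if_pos hg, if_true, Finset.sum_const, Finset.card_univ, nsmul_eq_mul, c]
        field_simp
        simp
      · intro z _ hz
        rw [if_neg]
        intro h
        exact hz (Subtype.ext h.symm)
      · intro h
        exact absurd (Finset.mem_univ _) h
    · rw [Finset.sum_eq_zero, Finset.sum_eq_zero, sub_zero]
      · intro z _
        rw [if_neg hg]
      · intro z _
        rw [if_neg]
        intro h
        exact hg (h ▸ z.2)
  have h5 : Metric.infDist d (kernel (fun _ _ => sumOf N : Matrix (Fin 1) (Fin 1) (G →₀ ℂ))) ≤ ‖y‖ := by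
    refine (Metric.infDist_le_dist_of_mem hker).trans (le_of_eq ?_)
    rw [dist_eq_norm]
    congr 1
    abel
  have h6 : kerDim (fun _ _ => sumOf N : Matrix (Fin 1) (Fin 1) (G →₀ ℂ)) =
      1 - Metric.infDist d (kernel (fun _ _ => sumOf N : Matrix (Fin 1) (Fin 1) (G →₀ ℂ))) ^ 2 := by
    unfold kerDim
    rw [Fin.sum_univ_one]
  rw [h6, ← hyn]
  have h7 := pow_le_pow_left₀ Metric.infDist_nonneg h5 2
  push_cast
  linarith

theorem sumOf_ne {G : Type u} [Group G] (N : Subgroup G) [Fintype N] : sumOf N ≠ 0 := by
  classical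
  intro h
  have h1 := sumOf_apply N 1
  rw [h, if_pos N.one_mem] at h1
  exact zero_ne_one h1

/-- **The Atiyah conjecture for finite-by-left-orderable groups.** Let `N` be a finite normal subgroup
of a group `G` such that `G ⧸ N` is left-orderable. Ranks are the numbers `m - kerDim A` for matrices
`A` over `ℂ G` with `m` rows. Then

(1) the least common multiple of the orders of the finite subgroups of `G` is `|N|`;
(2) the rank of every nonzero matrix over `ℂ G` is at least `1 / |N|`, and some element of `ℂ G` has
the rank `1 / |N|`;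
(3) if `N` is central in `G` and `A` is an `m × n` matrix over `ℂ G`, then the rank of `A` is at least
`s / |N|` and at most `min(m, n) * s / |N|`, where `s` is the number of the characters `χ` of `N` for
which the component of `A` at `χ` is not zero;
(4) if `N` is central in `G`, the rank of every matrix `A` over `ℂ G` with one row or with one column
is equal to `s / |N|`; so `|N|` times the dimension of its kernel is an integer. -/
theorem result {G : Type u} [Group G] (N : Subgroup G) [N.Normal] [Fintype N]
    (hQ : LeftOrderable (G ⧸ N)) :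
    IsLcm G (Fintype.card N) ∧
    ((∀ (m n : ℕ) (A : Matrix (Fin m) (Fin n) (G →₀ ℂ)), A ≠ 0 →
        1 / (Fintype.card N : ℝ) ≤ m - kerDim A) ∧
      ∃ A : Matrix (Fin 1) (Fin 1) (G →₀ ℂ), (1 : ℝ) - kerDim A = 1 / (Fintype.card N : ℝ)) ∧
    (N ≤ Subgroup.center G → ∀ (m n : ℕ) (A : Matrix (Fin m) (Fin n) (G →₀ ℂ)),
      (characterCount N A : ℝ) / Fintype.card N ≤ m - kerDim A ∧
      m - kerDim A ≤ (min m n : ℕ) * ((characterCount N A : ℝ) / Fintype.card N)) ∧
    (N ≤ Subgroup.center G → ∀ (m n : ℕ) (A : Matrix (Fin m) (Fin n) (G →₀ ℂ)), m = 1 ∨ n = 1 →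
      m - kerDim A = (characterCount N A : ℝ) / Fintype.card N ∧
      ∃ z : ℤ, (Fintype.card N : ℝ) * kerDim A = z) := by
  have hpos : (0 : ℝ) < Fintype.card N := Nat.cast_pos.2 Fintype.card_pos
  refine ⟨isLcm N hQ, ⟨fun m n A hA => gap' N hQ A hA, fun _ _ => sumOf N, ?_⟩,
    fun hN m n A => central N hQ hN A, ?_⟩
  · refine le_antisymm ?_ ?_
    · simpa using sharp N
    · have h1 := gap' N hQ (fun _ _ => sumOf N : Matrix (Fin 1) (Fin 1) (G →₀ ℂ)) (by
        intro h
        exact sumOf_ne N (congrFun (congrFun h 0) 0))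
      simpa using h1
  · intro hN m n A hmn
    obtain ⟨h1, h2⟩ := central N hQ hN A
    have h3 : m - kerDim A = (characterCount N A : ℝ) / Fintype.card N := by
      by_cases h0 : min m n = 0
      · have hs : characterCount N A = 0 := by
          have hempty : {χ : N →* ℂ | ∃ i j h, component χ (A i j) h ≠ 0} = ∅ := by
            ext χ
            simp only [Set.mem_ofPred_eq, Set.mem_empty_iff_false, iff_false]
            rintro ⟨i, j, _⟩
            have := i.isLt
            have := j.isLt
            omega
          unfold characterCount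
          rw [hempty, Set.ncard_empty]
        rw [hs] at h1 h2 ⊢
        rw [h0] at h2
        simp only [Nat.cast_zero, zero_mul, zero_div] at h1 h2 ⊢
        linarith
      · have h4 : min m n = 1 := by omega
        rw [h4] at h2
        push_cast at h2
        linarith
    refine ⟨h3, (m * Fintype.card N : ℤ) - characterCount N A, ?_⟩
    have h5 : kerDim A = m - (characterCount N A : ℝ) / Fintype.card N := by linarith
    rw [h5]
    push_cast
    field_simp

end Pool.Agent.Results.MP_54e5d7_al.FiniteByOrderable
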