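import Pool.Agent.U731.SG.AtiT

set_option autoImplicit false

/-!
# Hermitian matrices of small spectral span over arbitrary groups: kernel dimensions

`G` is any group. Let `A` be a hermitian matrix over `ℂG` whose nonzero coefficients, except those of
the identity on the diagonal, have absolute value at least `δ`. If the spectrum of `A` lies in an
interval of length at most `3 √2 δ`, then all kernel dimensions of matrices supported in the support
of `A` (for instance the dimensions of the eigenspaces of `A`) are in the group generated by the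
numbers `1 / |F|`, `F` a finite subgroup; if the length is less than `4 δ`, these matrices satisfy
polynomial equations. For larger lengths all real numbers occur, and the Atiyah conjecture is a
statement about such hermitian integer matrices.
-/

noncomputable section

namespace Pool.Agent.Results.MP_54e5d7_al.HermitianSpanTorsion

open ComplexConjugate

/-- The kernel of right multiplication by the matrix `A` on `ℓ²(G)^m`. -/
def kernel {G : Type} [Group G] {m n : ℕ} (A : Matrix (Fin m) (Fin n) (MonoidAlgebra ℂ G)) :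
    Set (lp (fun _ : Fin m × G => ℂ) 2) :=
  {x | ∀ (j : Fin n) (g : G),
    ∑ i : Fin m, (A i j).coeff.sum (fun h c => x (i, g * h⁻¹) * c) = 0}

open Classical in
/-- The von Neumann dimension of this kernel: the sum over `i` of one minus the squared distance
from the basis vector at `(i, 1)` to the kernel, that is, the trace of the projection onto the
kernel. -/
def kerDim {G : Type} [Group G] {m n : ℕ} (A : Matrix (Fin m) (Fin n) (MonoidAlgebra ℂ G)) : ℝ :=
  ∑ i : Fin m, (1 - (Metric.infDist
    (lp.single 2 (i, (1 : G)) (1 : ℂ) : lp (fun _ : Fin m × G => ℂ) 2) (kernel A)) ^ 2)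

/-- An integer matrix as a complex matrix. -/
def complex {G : Type} [Group G] {m n : ℕ} (N : Matrix (Fin m) (Fin n) (MonoidAlgebra ℤ G)) :
    Matrix (Fin m) (Fin n) (MonoidAlgebra ℂ G) :=
  N.map (MonoidAlgebra.mapRingHom G (Int.castRingHom ℂ))

/-- The orders of the finite subgroups of `G` are bounded, and `d` is their least common
multiple. -/
def IsLcm (G : Type) [Group G] (d : ℕ) : Prop :=
  (∃ N : ℕ, ∀ H : Subgroup G, Finite H → Nat.card H ≤ N) ∧
    (∀ H : Subgroup G, Finite H → Nat.card H ∣ d) ∧
    ∀ e : ℕ, (∀ H : Subgroup G, Finite H → Nat.card H ∣ e) → d ∣ e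

/-- `A` is hermitian: the coefficient of `g⁻¹` in the entry `(j, i)` is the complex conjugate of the
coefficient of `g` in the entry `(i, j)`. -/
def Hermitian {G : Type} [Group G] {n : ℕ} (A : Matrix (Fin n) (Fin n) (MonoidAlgebra ℂ G)) :
    Prop :=
  ∀ i j g, (A j i).coeff g⁻¹ = conj ((A i j).coeff g)

/-- The nonzero coefficients of `A`, except those of the identity on the diagonal, have absolute
value at least `δ`. -/
def Large {G : Type} [Group G] {n : ℕ} (A : Matrix (Fin n) (Fin n) (MonoidAlgebra ℂ G)) (δ : ℝ) :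
    Prop :=
  ∀ i j g, (A i j).coeff g ≠ 0 → (i = j ∧ g = 1) ∨ δ ≤ ‖(A i j).coeff g‖

/-- The values of the quadratic form `⟨xA, x⟩` on the vectors `x` of `ℓ²(G)^n` with finite support
`S` lie between `a |x|²` and `(a + s) |x|²`; for hermitian `A` this says that the spectrum of right
multiplication by `A` lies in the interval `[a, a + s]`. -/
def SpanLE {G : Type} [Group G] {n : ℕ} (A : Matrix (Fin n) (Fin n) (MonoidAlgebra ℂ G))
    (s : ℝ) : Prop :=
  ∃ a : ℝ, ∀ (S : Finset (Fin n × G)) (x : Fin n × G → ℂ),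
    a * ∑ p ∈ S, ‖x p‖ ^ 2
      ≤ (∑ p ∈ S, ∑ q ∈ S, x p * (A p.1 q.1).coeff (p.2⁻¹ * q.2) * conj (x q)).re ∧
    (∑ p ∈ S, ∑ q ∈ S, x p * (A p.1 q.1).coeff (p.2⁻¹ * q.2) * conj (x q)).re
      ≤ (a + s) * ∑ p ∈ S, ‖x p‖ ^ 2

/-- `B` is supported in the support of `A` and the identity elements on the diagonal. -/
def SupportedIn {G : Type} [Group G] {n : ℕ} (B A : Matrix (Fin n) (Fin n) (MonoidAlgebra ℂ G)) :
    Prop :=
  ∀ i j g, (B i j).coeff g ≠ 0 → (i = j ∧ g = 1) ∨ (A i j).coeff g ≠ 0

/-- `Q` is a hermitian integer matrix with coefficients `0`, `1`, `-1` and span at most `s`. -/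
def SmallHermitian {G : Type} [Group G] {k : ℕ} (Q : Matrix (Fin k) (Fin k) (MonoidAlgebra ℤ G))
    (s : ℝ) : Prop :=
  Hermitian (complex Q) ∧
  (∀ i j g, (Q i j).coeff g = 0 ∨ (Q i j).coeff g = 1 ∨ (Q i j).coeff g = -1) ∧
  SpanLE (complex Q) s

theorem kerDim_complex {G : Type} [Group G] {m n : ℕ}
    (N : Matrix (Fin m) (Fin n) (MonoidAlgebra ℤ G)) :
    kerDim (complex N) = Pool.Agent.W656.VA.kerDim (Pool.Agent.Y477.AV.cx N) := by
  have h : Pool.Agent.Y477.AV.cx N = fun i j => (complex N i j).coeff := by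
    funext i j
    ext g
    change (((N i j).coeff g : ℤ) : ℂ) = (MonoidAlgebra.mapRingHom G (Int.castRingHom ℂ)
      (N i j)).coeff g
    simp [MonoidAlgebra.coeff_mapRingHom]
  rw [h]
  rfl

theorem small_of {G : Type} [Group G] {k : ℕ} (Q : Matrix (Fin k) (Fin k) (MonoidAlgebra ℤ G))
    (s : ℝ) (h1 : U731.SP.HermZ Q) (h2 : U731.SP.SmallZ Q)
    (h3 : U731.SP.SpanLE (TH57.Thr.toReal Q) s) : SmallHermitian Q s := by
  refine ⟨?_, h2, U731.SG.spanK_of_int Q s h3⟩
  intro i j g
  change (U731.SG.cxM Q j i).coeff g⁻¹ = conj ((U731.SG.cxM Q i j).coeff g)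
  rw [U731.SG.cxM_coeff, U731.SG.cxM_coeff, h1 i j g]
  simp

/-- 1. Let `G` be any group, `δ > 0` and let `A` be a hermitian complex matrix whose nonzero
coefficients, except those of the identity on the diagonal, have absolute value at least `δ`, and
whose span is at most `3 √2 δ`. Then the kernel dimension of every complex matrix `B` supported in
the support of `A` and the identities on the diagonal (for instance `B = A - λ` for a number `λ`) is
in the additive group generated by the numbers `1 / |F|`, `F` a finite subgroup of `G`; if all `|F|`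
divide `d`, then `d · dim ker B` is an integer.
2. If the span is less than `4 δ`, each such `B` satisfies a monic polynomial, so that the spectrum
of `A` is finite.
3. For every `s > 3 √2` every real number `r ≥ 0` is the kernel dimension of a hermitian matrix with
coefficients `0`, `1`, `-1` and span at most `s` over a finitely generated solvable group in which
all elements of finite order have order at most two.
4. Let `s > 3 √2` and let `C` be a class of groups which is closed under direct products and under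
free products with free groups of finite rank. The Atiyah conjecture over `ℂ` holds for all groups
of `C` with bounded torsion if and only if the numbers `d · dim ker Q`, for the hermitian matrices `Q`
with coefficients `0`, `1`, `-1` and span at most `s` over these groups, avoid some interval `(a, b)`
with `0 ≤ a < b`. -/
theorem result :
    (∀ (G : Type) [Group G] (n : ℕ) (A : Matrix (Fin n) (Fin n) (MonoidAlgebra ℂ G)) (δ s : ℝ),
      0 < δ → Hermitian A → Large A δ → SpanLE A s →
      (s ^ 2 ≤ 18 * δ ^ 2 → ∀ B, SupportedIn B A →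
        kerDim B ∈ AddSubgroup.closure
          {x : ℝ | ∃ F : Subgroup G, Finite F ∧ x = (Nat.card F : ℝ)⁻¹} ∧
        ∀ d : ℕ, (∀ F : Subgroup G, Finite F → Nat.card F ∣ d) →
          ∃ z : ℤ, (d : ℝ) * kerDim B = z) ∧
      (s < 4 * δ → ∀ B, SupportedIn B A →
        ∃ p : Polynomial ℂ, p.Monic ∧ Polynomial.aeval B p = 0)) ∧
    (∀ s : ℝ, 0 < s → 18 < s ^ 2 → ∀ r : ℝ, 0 ≤ r →
      ∃ (G : Type) (_ : Group G), Group.FG G ∧ Group.IsSolvable G ∧
        (∀ g : G, IsOfFinOrder g → g ^ 2 = 1) ∧
        ∃ (k : ℕ) (Q : Matrix (Fin k) (Fin k) (MonoidAlgebra ℤ G)), SmallHermitian Q s ∧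
          kerDim (complex Q) = r) ∧
    (∀ s : ℝ, 0 < s → 18 < s ^ 2 → ∀ C : (G : Type) → [Group G] → Prop,
      (∀ (G H : Type) [Group G] [Group H], C G → C H → C (G × H)) →
      (∀ (G : Type) [Group G] (m : ℕ), C G → C (Monoid.Coprod G (FreeGroup (Fin m)))) →
      ((∀ (G : Type) [Group G], C G → ∀ d : ℕ, IsLcm G d →
        ∀ (m n : ℕ) (A : Matrix (Fin m) (Fin n) (MonoidAlgebra ℂ G)),
          ∃ z : ℤ, (d : ℝ) * kerDim A = z) ↔
      ∃ a b : ℝ, 0 ≤ a ∧ a < b ∧ ∀ (G : Type) [Group G], C G → ∀ d : ℕ, IsLcm G d →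
        ∀ (k : ℕ) (Q : Matrix (Fin k) (Fin k) (MonoidAlgebra ℤ G)), SmallHermitian Q s →
          ¬ (a < (d : ℝ) * kerDim (complex Q) ∧ (d : ℝ) * kerDim (complex Q) < b))) := by
  refine ⟨?_, ?_, ?_⟩
  · intro G _ n A δ s hδ hA hbig hsp
    refine ⟨fun hs B hB => ?_, fun hs B hB => ?_⟩
    · have h : kerDim B ∈ Pool.Agent.Y477.AV.Lam G :=
        Pool.Agent.U731.SP.kerDim_span (fun i j => (A i j).coeff) δ s hδ hA hbig hs hsp
          (fun i j => (B i j).coeff) hB
      exact ⟨h, fun d hd => Pool.Agent.Y477.AV.Lam_int G d hd _ h⟩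
    · have h1 := U731.SG.smallSpan_of A δ s hδ hA hbig hsp B hB
      have h2 : s / δ < 4 := by rwa [div_lt_iff₀ hδ]
      obtain ⟨ρ, u, C, hC, hst⟩ := U731.SG.smallSpan_fin (s / δ) h2 B h1
      exact U731.SG.algebraic_of_struct B ρ u C hC hst
  · intro s hs0 hs r hr
    obtain ⟨G, iG, h1, h2, h3, k, Q, h4, h5, h6, h7⟩ := U731.SG.habove s hs0 hs r hr
    exact ⟨G, iG, h1, h2, h3, k, Q, small_of Q s h4 h5 h6, (kerDim_complex Q).trans h7⟩
  · intro s hs0 hs C hprod hfree
    have key := U731.SG.hgap_iff s hs0 hs C hprod hfree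
    constructor
    · intro h
      refine ⟨0, 1, le_rfl, one_pos, ?_⟩
      rintro G _ hG d hd k Q _ ⟨h4, h5⟩
      obtain ⟨z, hz⟩ := h G hG d hd k k (complex Q)
      rw [hz] at h4 h5
      have h6 : (0 : ℤ) < z := by exact_mod_cast h4
      have h7 : z < (1 : ℤ) := by exact_mod_cast h5
      omega
    · rintro ⟨a, b, h1, h2, h3⟩ G _ hG d hd m n A
      have h4 := key.2 ⟨a, b, h1, h2, fun G _ hG d hd k Q h5 h6 h7 => by
        have h8 := h3 G hG d hd k Q (small_of Q s h5 h6 h7)
        rwa [kerDim_complex] at h8⟩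
      exact h4 G hG d hd m n (fun i j => (A i j).coeff)

end Pool.Agent.Results.MP_54e5d7_al.HermitianSpanTorsion
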