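import Pool.Agent.U700.LR6
import Pool.Agent.U700.IB4

set_option autoImplicit false

/-!
# The Atiyah conjecture and linear groups over local rings

Let `R` be a commutative local ring and `G` a group of invertible matrices over `R` whose image over
the residue field of `R` has finite order `q`. If the residue characteristic is zero, the kernel
dimensions of the matrices over `ℤ[G]` are in `(1/q) ℤ`. If it is a prime, `G` may have a lot of
torsion (every finite `p`-group occurs), but the kernel dimensions of the matrices of bounded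
complexity are arbitrarily near to `(1/q) ℤ` as soon as the prime is large, uniformly in the ring
and in the group.
-/

noncomputable section

namespace Pool.Agent.Results.MP_54e5d7_al.LocalRings

/-- The kernel of right multiplication by the matrix `A` over `ℂ[G]` on row vectors of length `m`
over `ℓ²(G)`: all square-summable `x` with `x A = 0`. -/
def kernel {G : Type} [Group G] {m n : ℕ} (A : Matrix (Fin m) (Fin n) (G →₀ ℂ)) :
    Set (lp (fun _ : Fin m × G => ℂ) 2) :=
  {x | ∀ (j : Fin n) (g : G), ∑ i : Fin m, (A i j).sum (fun h c => x (i, g * h⁻¹) * c) = 0}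

open Classical in
/-- The von Neumann dimension of this kernel: the sum over `i` of one minus the squared distance
from the basis vector at `(i, 1)` to the kernel, that is, the trace of the projection onto the
kernel. -/
def kerDim {G : Type} [Group G] {m n : ℕ} (A : Matrix (Fin m) (Fin n) (G →₀ ℂ)) : ℝ :=
  ∑ i : Fin m, (1 - (Metric.infDist
    (lp.single 2 (i, (1 : G)) (1 : ℂ) : lp (fun _ : Fin m × G => ℂ) 2) (kernel A)) ^ 2)

/-- `A` is a matrix over `ℤ[G]`. -/
def Integral {G : Type} [Group G] {m n : ℕ} (A : Matrix (Fin m) (Fin n) (G →₀ ℂ)) : Prop :=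
  ∀ i j g, ∃ a : ℤ, A i j g = a

/-- `A` is a matrix over `ℤ[G]` with at most `N` rows and at most `N` columns whose entries have
`ℓ¹`-norm at most `N`. -/
def Bounded {G : Type} [Group G] {m n : ℕ} (N : ℕ) (A : Matrix (Fin m) (Fin n) (G →₀ ℂ)) : Prop :=
  m ≤ N ∧ n ≤ N ∧ Integral A ∧ ∀ i j, (A i j).sum (fun _ c => ‖c‖) ≤ N

/-- The orders of the finite subgroups of `G` are bounded, and `d` is their least common
multiple. -/
def IsLcm (G : Type) [Group G] (d : ℕ) : Prop :=
  (∃ N : ℕ, ∀ H : Subgroup G, Finite H → Nat.card H ≤ N) ∧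
    (∀ H : Subgroup G, Finite H → Nat.card H ∣ d) ∧
    ∀ e : ℕ, (∀ H : Subgroup G, Finite H → Nat.card H ∣ e) → d ∣ e

/-- The elements of `G` which are mapped to matrices congruent to the identity matrix modulo the
maximal ideal of the local ring `R`. -/
def congruenceKernel {G : Type} [Group G] {R : Type} [CommRing R] [IsLocalRing R] {s : ℕ}
    (ρ : G →* Matrix.GeneralLinearGroup (Fin s) R) : Subgroup G :=
  ((Matrix.GeneralLinearGroup.map (IsLocalRing.residue R)).comp ρ).ker

open Pool.Agent Pool.Agent.U700 Filter Topology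

theorem kerDim_eq {G : Type} [Group G] {m n : ℕ} (A : Matrix (Fin m) (Fin n) (G →₀ ℂ)) :
    kerDim A = H80R2.BC.vdim (H80R2.BC.kerA (W656.VA.cv A)) := W656.VA.kerDim_eq A

theorem mem_D1 {G : Type} [Group G] {N m n : ℕ} (A : Matrix (Fin m) (Fin n) (G →₀ ℂ))
    (hA : Bounded N A) : kerDim A ∈ NI.D1 G N := by
  obtain ⟨hm, hn, hA, hA2⟩ := hA
  refine ⟨n, m, W656.VA.cv A, hn, hm, fun j i => ⟨fun g => ?_, ?_⟩, ?_⟩
  · have h1 := W656.VA.coef_mapDomain (R := (⊥ : Subring ℂ)) (fun g : G => g⁻¹) (A i j)
      (fun x => by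
        obtain ⟨a, ha⟩ := hA i j x
        exact Subring.mem_bot.2 ⟨a, ha.symm⟩) g
    obtain ⟨a, ha⟩ := Subring.mem_bot.1 h1
    exact ⟨a, ha.symm⟩
  · exact (IB.l1_mapDomain (fun g : G => g⁻¹) (A i j)).trans (hA2 i j)
  · rw [← kerDim_eq]

theorem exists_bounded {G : Type} [Group G] {m n : ℕ} (A : Matrix (Fin m) (Fin n) (G →₀ ℂ))
    (hA : Integral A) : ∃ N : ℕ, Bounded N A := by
  obtain ⟨M, hM⟩ := exists_nat_ge (∑ i, ∑ j, (A i j).sum (fun _ c => ‖c‖))
  have h0 : ∀ i j, 0 ≤ (A i j).sum (fun _ c => ‖c‖) := fun i j =>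
    Finset.sum_nonneg fun _ _ => norm_nonneg _
  refine ⟨m + n + M, by omega, by omega, hA, fun i j => ?_⟩
  have h1 : (A i j).sum (fun _ c => ‖c‖) ≤ ∑ j, (A i j).sum (fun _ c => ‖c‖) :=
    Finset.single_le_sum (f := fun j => (A i j).sum (fun _ c => ‖c‖)) (fun j _ => h0 i j)
      (Finset.mem_univ j)
  have h2 : ∑ j, (A i j).sum (fun _ c => ‖c‖) ≤ ∑ i, ∑ j, (A i j).sum (fun _ c => ‖c‖) :=
    Finset.single_le_sum (f := fun i => ∑ j, (A i j).sum (fun _ c => ‖c‖))
      (fun i _ => Finset.sum_nonneg fun j _ => h0 i j) (Finset.mem_univ i)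
  refine (h1.trans (h2.trans hM)).trans ?_
  push_cast
  have : (0 : ℝ) ≤ m := Nat.cast_nonneg _
  have : (0 : ℝ) ≤ n := Nat.cast_nonneg _
  linarith

/-- **Kernel dimensions for linear groups over local rings.**

(a) For all natural numbers `s`, `q ≥ 1`, `N` and all `ε > 0` there is `P` such that: if `R` is a
commutative local ring in which all primes `p ≤ P` are invertible, `G` a group with an injective
homomorphism to `GL_s(R)`, such that its image in `GL_s` of the residue field has order `q`, and `A`
a matrix over `ℤ[G]` with at most `N` rows and columns and entries of `ℓ¹`-norm at most `N`, then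
the von Neumann dimension of the kernel of `A` is within `ε` of an integral multiple of `1 / q`.

(b) If all primes are invertible in `R`, then the kernel dimensions of all matrices over `ℤ[G]` are
integral multiples of `1 / q`, and the orders of the finite subgroups of `G` divide `q`. So if `G`
has a finite subgroup of order `q`, then `lcm(G) = q` and `G` satisfies the Atiyah conjecture for
matrices over `ℤ[G]`. -/
theorem result :
    (∀ s q N : ℕ, q ≠ 0 → ∀ ε : ℝ, 0 < ε → ∃ P : ℕ,
      ∀ (R : Type) [CommRing R] [IsLocalRing R], (∀ p : ℕ, p.Prime → p ≤ P → IsUnit (p : R)) →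
      ∀ (G : Type) [Group G] (ρ : G →* Matrix.GeneralLinearGroup (Fin s) R),
        Function.Injective ρ → (congruenceKernel ρ).index = q →
        ∀ (m n : ℕ) (A : Matrix (Fin m) (Fin n) (G →₀ ℂ)), Bounded N A →
          ∃ z : ℤ, |kerDim A - z / q| < ε) ∧
    ∀ s q : ℕ, q ≠ 0 → ∀ (R : Type) [CommRing R] [IsLocalRing R],
      (∀ p : ℕ, p.Prime → IsUnit (p : R)) →
      ∀ (G : Type) [Group G] (ρ : G →* Matrix.GeneralLinearGroup (Fin s) R),
        Function.Injective ρ → (congruenceKernel ρ).index = q →
        (∀ (m n : ℕ) (A : Matrix (Fin m) (Fin n) (G →₀ ℂ)), Integral A →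
          ∃ z : ℤ, q * kerDim A = z) ∧
        (∀ K : Subgroup G, Finite K → Nat.card K ∣ q) ∧
        ((∃ K : Subgroup G, Nat.card K = q) → IsLcm G q) := by
  have hck : ∀ {G : Type} [Group G] {R : Type} [CommRing R] [IsLocalRing R] {s : ℕ}
      (ρ : G →* Matrix.GeneralLinearGroup (Fin s) R), ∀ g ∈ congruenceKernel ρ,
      ρ g ∈ LR.cg s (IsLocalRing.maximalIdeal R) := fun ρ g hg => hg
  refine ⟨?_, ?_⟩
  · intro s q N hq ε hε
    obtain ⟨P, hP⟩ := LR.near_index s q N hq ε hε
    exact ⟨P, fun R _ _ hp G _ ρ hρ hi m n A hA =>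
      hP R hp G ρ hρ (congruenceKernel ρ) hi (hck ρ) _ (mem_D1 A hA)⟩
  · intro s q hq R _ _ hp G _ ρ hρ hi
    have hqp : (0 : ℝ) < q := by exact_mod_cast Nat.pos_of_ne_zero hq
    have hn : (congruenceKernel ρ).Normal := by
      unfold congruenceKernel
      infer_instance
    have hdiv : ∀ K : Subgroup G, Finite K → Nat.card K ∣ q := by
      intro K hK
      let f : K →* G ⧸ congruenceKernel ρ := (QuotientGroup.mk' (congruenceKernel ρ)).comp K.subtype
      have hf : Function.Injective f := by
        rw [injective_iff_map_eq_one]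
        intro x hx
        have h1 : (x : G) ∈ congruenceKernel ρ := (QuotientGroup.eq_one_iff (x : G)).1 hx
        have h2 : ρ x ^ Nat.card K = 1 := by
          rw [← map_pow, ← SubmonoidClass.coe_pow, pow_card_eq_one']
          exact map_one ρ
        have h3 := LR.cg_tf hp (ρ x) (hck ρ x h1) (Nat.card K) Nat.card_pos.ne' h2
        apply Subtype.ext
        exact hρ (h3.trans (map_one ρ).symm)
      have h1 := Subgroup.card_dvd_of_injective f hf
      rw [← hi]
      exact h1
    refine ⟨?_, hdiv, ?_⟩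
    · intro m n A hA
      obtain ⟨N, hN⟩ := exists_bounded A hA
      have h1 : ∀ j : ℕ, ∃ z : ℤ, |kerDim A - z / q| < 1 / ((j : ℝ) + 1) := by
        intro j
        obtain ⟨P, hP⟩ := LR.near_index s q N hq (1 / ((j : ℝ) + 1)) (by positivity)
        exact hP R (fun p hpp _ => hp p hpp) G ρ hρ (congruenceKernel ρ) hi (hck ρ) _
          (mem_D1 A hN)
      choose z hz using h1
      have h2 : Tendsto (fun j : ℕ => (z j : ℝ) / q) atTop (𝓝 (kerDim A)) := by
        rw [tendsto_iff_dist_tendsto_zero]
        refine squeeze_zero (fun _ => dist_nonneg) (fun j => ?_)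
          (tendsto_one_div_add_atTop_nhds_zero_nat (𝕜 := ℝ))
        rw [dist_comm, Real.dist_eq]
        exact (hz j).le
      have h3 : Tendsto (fun j : ℕ => (z j : ℝ)) atTop (𝓝 (q * kerDim A)) := by
        have h4 := h2.const_mul (q : ℝ)
        refine h4.congr fun j => ?_
        field_simp
      exact LR.int_of_tendsto h3 fun j => ⟨z j, rfl⟩
    · rintro ⟨K, hK⟩
      have hKf : Finite K := by
        apply Nat.finite_of_card_ne_zero
        rw [hK]
        exact hq
      refine ⟨⟨q, fun H hH => Nat.le_of_dvd (Nat.pos_of_ne_zero hq) (hdiv H hH)⟩, hdiv, ?_⟩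
      intro e he
      rw [← hK]
      exact he K hKf

end Pool.Agent.Results.MP_54e5d7_al.LocalRings
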