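import Pool.Agent.U722.FF.Li

/-!
# The Atiyah conjecture for subgroups of `GL_2(ℤ[x_1, ..., x_n])`

A group is locally indicable if every nontrivial finitely generated subgroup has a nontrivial
homomorphism to `ℤ`. We prove, without any hypothesis:

(1) if a group acts on a tree without inversions, the stabilizers of the vertices are torsion-free and
each of them is abelian or free (a subgroup of a free group), and the stabilizers of the edges are
abelian with all subgroups finitely generated, then the group is locally indicable;

(2) every torsion-free subgroup of `GL_2(ℤ[x_1, ..., x_n])` is locally indicable.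

The problem file lists the following known fact (Jaikin-Zapirain, Lopez-Alvarez): if `G → Q` is
surjective, its kernel is torsion-free and satisfies the Atiyah conjecture and `Q` is locally
indicable, then `G` satisfies it. Assuming this fact (`KnownExtensions`) we get

(3) the Atiyah conjecture (with coefficients in any subfield of `ℂ`) for all torsion-free subgroups `Q`
of `GL_2(ℤ[x_1, ..., x_n])` and for all extensions of such groups by torsion-free groups which satisfy it.

Outline of the proof of (1), (2). A finitely generated group `G` as in (1) acts cocompactly on a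
subtree, and its stabilizers are finitely generated. If the quotient graph is not a tree there is a
homomorphism to `ℤ` which counts the passages through an edge. Otherwise the orbits of edges inject
into the orbits of vertices other than a given one `r` (an edge goes to its end farther from `r`); the
numbers `dim Hom(·, ℚ)` do not increase from edge groups to vertex groups, and for `r` with a nontrivial
group this number is positive. So there is a nonzero compatible family of homomorphisms from the vertex
groups to `ℚ`, and such families extend to `G` (a cohomological gluing argument on the tree). For (2)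
one uses the decomposition of `MP_d19827_al.PolynomialMatrixGroups` (tree of the valuation `- deg`;
stabilizers of vertices are abelian or subgroups of `GL_2(ℤ)`, those of edges are abelian).
-/

set_option autoImplicit false

namespace Pool.Agent.Results.MP_54e5d7_al.PolynomialMatrixGroups

open MulAction
open scoped ENNReal

/-- only the unit element has finite order -/
def TorsionFree (G : Type) [Group G] : Prop := ∀ g : G, ∀ k : ℕ, 0 < k → g ^ k = 1 → g = 1

/-- every nontrivial finitely generated subgroup has a nontrivial homomorphism to `ℤ` -/
def LocallyIndicable (G : Type) [Group G] : Prop :=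
  ∀ H : Subgroup G, Group.FG H → Nontrivial H → ∃ f : H →* Multiplicative ℤ, f ≠ 1

/-- the stabilizers are torsion-free and abelian or free -/
def AbelianOrFree (H : Type) [Group H] : Prop :=
  TorsionFree H ∧ ((∀ a b : H, a * b = b * a) ∨
    ∃ (X : Type) (f : H →* FreeGroup X), Function.Injective f)

/-- abelian groups all of whose subgroups are finitely generated -/
def SlenderAbelian (H : Type) [Group H] : Prop :=
  (∀ a b : H, a * b = b * a) ∧ ∀ K : Subgroup H, Group.FG K

open Classical in
/-- the Atiyah conjecture for a torsion-free group `G` with coefficients in `F`: the von Neumann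
dimensions of the kernels of the right multiplications by matrices over `FG` are integers (the
dimension of the kernel in `ℓ²(G)^m` is the sum over `i` of one minus the square of the distance of the
basis vector `(i, 1)` from the kernel) -/
def Atiyah (F : Subfield ℂ) (G : Type) [Group G] : Prop :=
  ∀ (m n : ℕ) (A : Matrix (Fin m) (Fin n) (G →₀ ℂ)), (∀ i j g, A i j g ∈ F) →
    ∃ z : ℤ, (∑ i : Fin m,
      ((1 : ℝ) - (Metric.infDist
        (lp.single 2 (i, (1 : G)) (1 : ℂ) : lp (fun _ : Fin m × G => ℂ) 2)
        {x : lp (fun _ : Fin m × G => ℂ) 2 | ∀ (j : Fin n) (g : G),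
          ∑ i' : Fin m, (A i' j).sum (fun h c => x (i', g * h⁻¹) * c) = 0}) ^ 2)) = (z : ℝ)

/-- the published fact: extensions with locally indicable quotient -/
def KnownExtensions : Prop :=
  ∀ (F : Subfield ℂ) (G Q : Type) [Group G] [Group Q] (π : G →* Q), Function.Surjective π →
    TorsionFree π.ker → Atiyah F π.ker → LocallyIndicable Q → Atiyah F G

/-- (1) A group which acts without inversions on a tree with torsion-free stabilizers of vertices, each
abelian or free, and slender abelian stabilizers of edges is locally indicable. (2) Torsion-free subgroups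
of `GL_2(ℤ[x_1, ..., x_n])` are locally indicable. (3) Assume `KnownExtensions`. If `π : G → Q` is
surjective, `ker π` is torsion-free and satisfies the Atiyah conjecture and `Q` is a torsion-free
subgroup of `GL_2(ℤ[x_1, ..., x_n])`, then `G` satisfies the Atiyah conjecture. -/
theorem result :
    (∀ (G V : Type) [Group G] [MulAction G V] (T : SimpleGraph V), T.IsTree →
      (∀ (g : G) (u v : V), T.Adj u v → T.Adj (g • u) (g • v)) →
      (∀ (g : G) (u v : V), T.Adj u v → g • u = v → g • v ≠ u) →
      (∀ v : V, AbelianOrFree ↥(stabilizer G v)) →
      (∀ u v : V, T.Adj u v → SlenderAbelian ↥(stabilizer G u ⊓ stabilizer G v)) →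
      LocallyIndicable G) ∧
    (∀ (n : ℕ) (G : Type) [Group G] (ρ : G →* GL (Fin 2) (MvPolynomial (Fin n) ℤ)),
      Function.Injective ρ → TorsionFree G → LocallyIndicable G) ∧
    (KnownExtensions →
      ∀ (n : ℕ) (F : Subfield ℂ) (G Q : Type) [Group G] [Group Q] (π : G →* Q)
        (ρ : Q →* GL (Fin 2) (MvPolynomial (Fin n) ℤ)), Function.Surjective π →
        TorsionFree π.ker → Atiyah F π.ker → Function.Injective ρ → TorsionFree Q →
        Atiyah F G) := by
  have h2 : ∀ (n : ℕ) (G : Type) [Group G] (ρ : G →* GL (Fin 2) (MvPolynomial (Fin n) ℤ)),
      Function.Injective ρ → TorsionFree G → LocallyIndicable G := by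
    intro n G _ ρ hρ hnt H hH hn
    exact U722.FF.LI n H (ρ.comp H.subtype) (hρ.comp H.subtype_injective)
      (U722.FF.NoTor_le H.subtype H.subtype_injective hnt) hH
  refine ⟨?_, h2, fun hK n F G Q _ _ π ρ hπ h3 h4 hρ hQ => hK F G Q π hπ h3 h4 (h2 n Q ρ hρ hQ)⟩
  intro G V _ _ T hT hact hinv hv he H hH hn
  have hfg : ∀ (K L : Type) [Group K] [Group L] (j : K →* L), Function.Injective j →
      (∀ M : Subgroup L, Group.FG M) → Group.FG K := by
    intro K L _ _ j hj hL
    have h1 : Group.FG j.range := hL _
    have e := MonoidHom.ofInjective hj
    exact Group.fg_of_surjective (f := e.symm.toMonoidHom) e.symm.surjective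
  have hnv : ∀ v : V, U722.FF.NoTor ↥(stabilizer H v) ∧
      ((∀ a b : ↥(stabilizer H v), a * b = b * a) ∨
        ∃ (X : Type) (f : ↥(stabilizer H v) →* FreeGroup X), Function.Injective f) := by
    intro v
    let j : ↥(stabilizer H v) →* ↥(stabilizer G v) :=
      (H.subtype.comp (Subgroup.subtype _)).codRestrict _ (fun x => x.2)
    have hj : Function.Injective j := by
      intro a b hab
      have h1 := congrArg Subtype.val hab
      exact Subtype.ext (Subtype.ext h1)
    refine ⟨U722.FF.NoTor_le j hj (hv v).1, ?_⟩
    rcases (hv v).2 with h | ⟨X, f, hf⟩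
    · exact Or.inl fun a b => hj (by rw [map_mul, map_mul, h])
    · exact Or.inr ⟨X, f.comp j, hf.comp hj⟩
  have hE : ∀ u v : V, T.Adj u v → U722.FF.ET ↥(stabilizer H u ⊓ stabilizer H v) := by
    intro u v huv
    let j : ↥(stabilizer H u ⊓ stabilizer H v) →* ↥(stabilizer G u ⊓ stabilizer G v) :=
      (H.subtype.comp (Subgroup.subtype _)).codRestrict _ (fun x => ⟨x.2.1, x.2.2⟩)
    have hj : Function.Injective j := by
      intro a b hab
      have h1 := congrArg Subtype.val hab
      exact Subtype.ext (Subtype.ext h1)
    refine ⟨hfg _ _ j hj (he u v huv).2, ?_, fun a b => hj (by rw [map_mul, map_mul, (he u v huv).1])⟩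
    let j2 : ↥(stabilizer H u ⊓ stabilizer H v) →* ↥(stabilizer H u) :=
      (Subgroup.subtype _).codRestrict _ (fun x => x.2.1)
    have hj2 : Function.Injective j2 := by
      intro a b hab
      have h1 := congrArg (fun z : ↥(stabilizer H u) => z.1) hab
      exact Subtype.ext h1
    exact U722.FF.NoTor_le j2 hj2 (hnv u).1
  refine U722.FF.Ind_of_tree H hH (U722.FF.CO H V T (fun K _ => U722.FF.VT K)
    (fun K _ => U722.FF.ET K) hH hT (fun g u v h => hact g.1 u v h) (fun g u v h => hinv g.1 u v h)
    (fun u v huv => ⟨hE u v huv, (hE u v huv).1⟩) (fun v h => ⟨h, (hnv v).1, (hnv v).2⟩))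

end Pool.Agent.Results.MP_54e5d7_al.PolynomialMatrixGroups
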